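import Pool.Agent.Helper64.Rig.Basics

/-!
# The tangent space of the covering curve of the Fermat quintic has dimension at most two
-/

namespace Pool.Agent.Helper95.Rig

open MvPolynomial Module Pool.Agent.Helper64.Rig

/-- The point `v + ε u`. -/
noncomputable def dl (v u : Jx → ℂ) (j : Jx) : DualNumber ℂ :=
  TrivSqZeroExt.inl (v j) + TrivSqZeroExt.inr (u j)

/-- The directional derivative. -/
noncomputable def dd (v u : Jx → ℂ) (G : MvPolynomial Jx ℂ) : ℂ :=
  ∑ i, u i * eval v (pderiv i G)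

theorem dd_add (v u : Jx → ℂ) (G H : MvPolynomial Jx ℂ) : dd v u (G + H) = dd v u G + dd v u H := by
  unfold dd
  simp only [map_add, mul_add, Finset.sum_add_distrib]

theorem dd_C (v u : Jx → ℂ) (a : ℂ) : dd v u (C a) = 0 := by
  unfold dd
  simp only [pderiv_C, map_zero, mul_zero, Finset.sum_const_zero]

theorem dd_mul (v u : Jx → ℂ) (G H : MvPolynomial Jx ℂ) :
    dd v u (G * H) = eval v G * dd v u H + eval v H * dd v u G := by
  unfold dd
  rw [Finset.mul_sum, Finset.mul_sum, ← Finset.sum_add_distrib]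
  refine Finset.sum_congr rfl fun i _ => ?_
  rw [pderiv_mul, map_add, map_mul, map_mul]
  ring

theorem dd_X (v u : Jx → ℂ) (j : Jx) : dd v u (X j) = u j := by
  unfold dd
  rw [Finset.sum_eq_single j]
  · simp
  · intro b _ hb
    rw [pderiv_X_of_ne hb.symm, map_zero, mul_zero]
  · intro h
    exact absurd (Finset.mem_univ j) h

theorem aeval_dl (v u : Jx → ℂ) (G : MvPolynomial Jx ℂ) :
    aeval (dl v u) G = TrivSqZeroExt.inl (eval v G) + TrivSqZeroExt.inr (dd v u G) := by
  induction G using MvPolynomial.induction_on with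
  | C a =>
    rw [dd_C, TrivSqZeroExt.inr_zero, add_zero, algHom_C, eval_C]
    rfl
  | add p q hp hq =>
    rw [map_add, hp, hq, map_add, dd_add, TrivSqZeroExt.inl_add, TrivSqZeroExt.inr_add]
    ring
  | mul_X p j hp =>
    rw [map_mul, hp, aeval_X, dd_mul, dd_X, map_mul, eval_X]
    apply TrivSqZeroExt.ext
    · simp [dl]
    · simp [dl, mul_comm, add_comm]

theorem aeval_pr {A : Type} [CommRing A] [Algebra ℂ A] (x : Jx → A) (i : Fin 3) :
    aeval x (pr (X : Jx → MvPolynomial Jx ℂ) i) = pr x i := by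
  unfold pr
  rw [map_prod]
  simp only [aeval_X]

theorem aeval_el {A : Type} [CommRing A] [Algebra ℂ A] (ζ : ℂ) (x : Jx → A) (j : Jx) :
    aeval x (el ζ (X : Jx → MvPolynomial Jx ℂ) j) = el ζ x j := by
  unfold el
  rw [map_add, map_mul, aeval_pr, aeval_pr, AlgHom.commutes]

theorem aeval_EE {A : Type} [CommRing A] [Algebra ℂ A] (ζ : ℂ) (x : Jx → A) (j : Jx) :
    aeval x (EE ζ j) = x j ^ 5 + el ζ x j := by
  unfold EE
  rw [map_add, map_pow, aeval_X, aeval_el]

theorem pr_pow_five' {A : Type} [CommRing A] [Algebra ℂ A] {ζ : ℂ} (hζ : IsPrimitiveRoot ζ 5)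
    (x : Jx → A) (hx : ∀ j, x j ^ 5 + el ζ x j = 0) (i : Fin 3) :
    pr x i ^ 5 = -(pr x (i + 1) ^ 5 + pr x (i + 2) ^ 5) := by
  rw [← prod_add_zeta hζ (pr x (i + 1)) (pr x (i + 2))]
  have h1 : ∀ k : Fin 5, x (i, k) ^ 5
      = -(pr x (i + 1) + algebraMap ℂ A (ζ ^ (k : ℕ)) * pr x (i + 2)) := fun k =>
    eq_neg_of_add_eq_zero_left (hx (i, k))
  calc pr x i ^ 5 = ∏ k : Fin 5, x (i, k) ^ 5 := by
        unfold pr
        rw [Finset.prod_pow]
    _ = ∏ k : Fin 5, -(pr x (i + 1) + algebraMap ℂ A (ζ ^ (k : ℕ)) * pr x (i + 2)) :=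
        Finset.prod_congr rfl fun k _ => h1 k
    _ = _ := by
        rw [Finset.prod_neg]
        simp only [Finset.card_univ, Fintype.card_fin]
        ring

/-- The linear map of the directional derivatives of the products. -/
noncomputable def ddl (v : Jx → ℂ) : (Jx → ℂ) →ₗ[ℂ] (Fin 3 → ℂ) where
  toFun u i := dd v u (pr X i)
  map_add' u u' := by
    funext i
    simp only [dd, Pi.add_apply, add_mul, Finset.sum_add_distrib]
  map_smul' c u := by
    funext i
    simp only [dd, Pi.smul_apply, smul_eq_mul, Finset.mul_sum, RingHom.id_apply, mul_assoc]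

/-- The linear form `z ↦ ∑ P_i^4 z_i`. -/
noncomputable def lf (a : Fin 3 → ℂ) : (Fin 3 → ℂ) →ₗ[ℂ] ℂ where
  toFun z := ∑ i, a i * z i
  map_add' z z' := by simp only [Pi.add_apply, mul_add, Finset.sum_add_distrib]
  map_smul' c z := by
    simp only [Pi.smul_apply, smul_eq_mul, Finset.mul_sum, RingHom.id_apply]
    exact Finset.sum_congr rfl fun i _ => by ring

theorem finrank_ker_lf {a : Fin 3 → ℂ} (ha : a ≠ 0) : finrank ℂ (LinearMap.ker (lf a)) ≤ 2 := by
  have h1 := LinearMap.finrank_range_add_finrank_ker (lf a)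
  have h2 : finrank ℂ (Fin 3 → ℂ) = 3 := by simp
  have h3 : LinearMap.range (lf a) = ⊤ := by
    apply LinearMap.range_eq_top.2
    obtain ⟨i, hi⟩ := Function.ne_iff.1 ha
    intro c
    refine ⟨Pi.single i (c / a i), ?_⟩
    change ∑ l, a l * (Pi.single i (c / a i) : Fin 3 → ℂ) l = c
    rw [Finset.sum_eq_single i]
    · rw [Pi.single_eq_same]
      exact mul_div_cancel₀ c hi
    · intro b _ hb
      rw [Pi.single_eq_of_ne hb, mul_zero]
    · intro h
      exact absurd (Finset.mem_univ i) h
  rw [h3, finrank_top, h2, finrank_self] at h1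
  omega

theorem pr_dl (v u : Jx → ℂ) (i : Fin 3) :
    pr (dl v u) i = TrivSqZeroExt.inl (pr v i) + TrivSqZeroExt.inr (dd v u (pr X i)) := by
  have h := aeval_dl v u (pr X i)
  rw [aeval_pr] at h
  rw [h]
  congr 2
  have := aeval_pr v i
  rw [← this]
  rfl

theorem eval_pr (v : Jx → ℂ) (i : Fin 3) : eval v (pr X i) = pr v i := by
  have := aeval_pr v i
  rw [← this]
  rfl

theorem pf_TanLo : StmtTanLo := by
  intro ζ hζ v hv hE U hU
  -- the relations at `v`
  have hrel : ∀ j, v j ^ 5 + el ζ v j = 0 := by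
    intro j
    rw [← aeval_EE]
    exact hE j
  have hζ0 : ζ ≠ 0 := hζ.ne_zero (by norm_num)
  -- if one product and one coordinate of `P` vanish then all vanish
  have hP5 := pr_pow_five' hζ v hrel
  have hsum : pr v 0 ^ 5 + pr v 1 ^ 5 + pr v 2 ^ 5 = 0 := by
    have := hP5 0
    simp only [zero_add] at this
    rw [this]; ring
  have hP0 : ∀ i : Fin 3, pr v (i + 1) = 0 → pr v (i + 2) = 0 → False := by
    intro i h1 h2
    have h0 : ∀ l : Fin 3, pr v l = 0 := by
      intro l
      have h3 : pr v i = 0 := by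
        have := hP5 i
        rw [h1, h2] at this
        simpa using this
      fin_cases i <;> fin_cases l <;> first | exact h3 | exact h1 | exact h2
    apply hv
    funext j
    have h4 := hrel j
    unfold el at h4
    rw [h0, h0] at h4
    simpa using h4
  have hP : (fun i => pr v i ^ 4) ≠ 0 := by
    intro h
    have h0 : ∀ i, pr v i = 0 := fun i => by
      have := congrFun h i
      simpa using this
    exact hP0 0 (h0 _) (h0 _)
  -- the relations at `v + ε u`
  have hrel' : ∀ u ∈ U, ∀ j, dl v u j ^ 5 + el ζ (dl v u) j = 0 := by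
    intro u hu j
    rw [← aeval_EE, aeval_dl, hE j]
    have : dd v u (EE ζ j) = 0 := hU u hu j
    rw [this]
    simp
  -- the range
  have hrange : ∀ u ∈ U, ddl v u ∈ LinearMap.ker (lf fun i => pr v i ^ 4) := by
    intro u hu
    rw [LinearMap.mem_ker]
    have h1 := pr_pow_five' hζ (dl v u) (hrel' u hu) 0
    have h2 : pr (dl v u) 0 ^ 5 + pr (dl v u) 1 ^ 5 + pr (dl v u) 2 ^ 5 = 0 := by
      simp only [zero_add] at h1
      rw [h1]; ring
    rw [pr_dl, pr_dl, pr_dl] at h2
    have h3 := congrArg TrivSqZeroExt.snd h2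
    simp only [TrivSqZeroExt.snd_add, TrivSqZeroExt.snd_pow, TrivSqZeroExt.fst_add,
      TrivSqZeroExt.fst_inl, TrivSqZeroExt.fst_inr, TrivSqZeroExt.snd_inl, TrivSqZeroExt.snd_inr,
      add_zero, zero_add, TrivSqZeroExt.snd_zero, smul_eq_mul, nsmul_eq_mul] at h3
    change ∑ i, pr v i ^ 4 * dd v u (pr X i) = 0
    rw [Fin.sum_univ_three]
    have h5 : (5 : ℂ) * (pr v 0 ^ 4 * dd v u (pr X 0) + pr v 1 ^ 4 * dd v u (pr X 1)
        + pr v 2 ^ 4 * dd v u (pr X 2)) = 0 := by
      rw [← h3]
      simp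
      ring
    exact (mul_eq_zero.1 h5).resolve_left (by norm_num)
  -- injectivity
  have hinj : ∀ u ∈ U, ddl v u = 0 → u = 0 := by
    intro u hu h0
    have hd : ∀ i, dd v u (pr X i) = 0 := fun i => congrFun h0 i
    have h4 : ∀ j, v j ≠ 0 → u j = 0 := by
      intro j hj
      have h1 := congrArg TrivSqZeroExt.snd (hrel' u hu j)
      unfold el at h1
      rw [pr_dl, pr_dl, hd, hd] at h1
      have h2 : (TrivSqZeroExt.snd (algebraMap ℂ (DualNumber ℂ) (ζ ^ (j.2 : ℕ)))) = 0 := rfl
      simp only [dl, TrivSqZeroExt.snd_add, TrivSqZeroExt.snd_pow, TrivSqZeroExt.fst_add,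
        TrivSqZeroExt.fst_inl, TrivSqZeroExt.fst_inr, TrivSqZeroExt.snd_inl,
        TrivSqZeroExt.snd_inr, TrivSqZeroExt.snd_mul, h2,
        add_zero, zero_add, TrivSqZeroExt.snd_zero, smul_eq_mul, nsmul_eq_mul,
        TrivSqZeroExt.inr_zero, mul_zero, smul_zero] at h1
      have h3 : (5 : ℂ) * (v j ^ 4 * u j) = 0 := by
        rw [← h1]
        simp
      have h5 := (mul_eq_zero.1 h3).resolve_left (by norm_num)
      exact (mul_eq_zero.1 h5).resolve_left (pow_ne_zero 4 hj)
    funext j
    by_cases hj : v j = 0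
    · obtain ⟨i, k⟩ := j
      -- the product of the block vanishes
      have hPi : pr v i = 0 := Finset.prod_eq_zero (Finset.mem_univ k) hj
      have h6 : pr v (i + 1) + ζ ^ (k : ℕ) * pr v (i + 2) = 0 := by
        have := hrel (i, k)
        rw [hj] at this
        simpa [el] using this
      have h7 : pr v (i + 2) ≠ 0 := by
        intro h
        apply hP0 i _ h
        rw [h, mul_zero, add_zero] at h6
        exact h6
      have h8 : ∀ k' : Fin 5, k' ≠ k → v (i, k') ≠ 0 := by
        intro k' hk h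
        have h9 : pr v (i + 1) + ζ ^ (k' : ℕ) * pr v (i + 2) = 0 := by
          have := hrel (i, k')
          rw [h] at this
          simpa [el] using this
        have h10 : (ζ ^ (k' : ℕ) - ζ ^ (k : ℕ)) * pr v (i + 2) = 0 := by
          linear_combination h9 - h6
        have h11 := (mul_eq_zero.1 h10).resolve_right h7
        have h12 := hζ.pow_inj k'.2 k.2 (sub_eq_zero.1 h11)
        exact hk (Fin.ext h12)
      -- the derivative of the product
      have h13 : dl v u (i, k) = TrivSqZeroExt.inr (u (i, k)) := by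
        unfold dl
        rw [hj, TrivSqZeroExt.inl_zero, zero_add]
      have h14 : ∀ k' ∈ Finset.univ.erase k, dl v u (i, k') = TrivSqZeroExt.inl (v (i, k')) := by
        intro k' hk'
        unfold dl
        rw [h4 _ (h8 k' (Finset.ne_of_mem_erase hk')), TrivSqZeroExt.inr_zero, add_zero]
      have h15 : pr (dl v u) i = TrivSqZeroExt.inr (u (i, k))
          * TrivSqZeroExt.inl (∏ k' ∈ Finset.univ.erase k, v (i, k')) := by
        unfold pr
        rw [← Finset.mul_prod_erase Finset.univ _ (Finset.mem_univ k), h13,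
          Finset.prod_congr rfl h14]
        congr 1
        exact (map_prod (TrivSqZeroExt.inlHom ℂ ℂ) (fun k' => v (i, k')) _).symm
      have h16 := congrArg TrivSqZeroExt.snd h15
      rw [pr_dl, hd] at h16
      simp only [TrivSqZeroExt.snd_mul, TrivSqZeroExt.fst_inl,
        TrivSqZeroExt.fst_inr, TrivSqZeroExt.snd_inl, TrivSqZeroExt.snd_inr, zero_smul,
        zero_add, add_zero, TrivSqZeroExt.inr_zero] at h16
      have h17 : (∏ k' ∈ Finset.univ.erase k, v (i, k')) * u (i, k) = 0 := by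
        rw [h16]
        simp [mul_comm]
      have h18 : (∏ k' ∈ Finset.univ.erase k, v (i, k')) ≠ 0 :=
        Finset.prod_ne_zero_iff.2 fun k' hk' => h8 k' (Finset.ne_of_mem_erase hk')
      exact (mul_eq_zero.1 h17).resolve_left h18
    · exact h4 j hj
  -- conclusion
  let f : U →ₗ[ℂ] LinearMap.ker (lf fun i => pr v i ^ 4) :=
    LinearMap.codRestrict _ ((ddl v).comp U.subtype) fun u => hrange u u.2
  have hf : Function.Injective f := by
    rw [← LinearMap.ker_eq_bot, LinearMap.ker_eq_bot']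
    intro u hu
    have h1 : ddl v (u : Jx → ℂ) = 0 := congrArg Subtype.val hu
    exact Subtype.ext (hinj u u.2 h1)
  exact (LinearMap.finrank_le_finrank_of_injective hf).trans (finrank_ker_lf hP)

end Pool.Agent.Helper95.Rig
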